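import Pool.Agent.helper17.BN.C12Av

/-!
# BN-C3: the two conditions at the crossing hold in the thin limit
-/

set_option autoImplicit false
open MeasureTheory Filter Topology Set Metric
open scoped ContDiff

noncomputable section
namespace Pool.Agent.helper13.BN
variable {N : ℕ}

/-! ### continuity of integrals under uniform approximation -/

lemma c12_close {S T : ℝ → ℝ} (hS : Continuous S) (hT : Continuous T)
    (hS1 : ∀ τ ∈ Icc (0 : ℝ) 1, |S τ| ≤ 1 / 2) (hT1 : ∀ τ ∈ Icc (0 : ℝ) 1, |T τ| ≤ 1 / 2)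
    {G : ℝ × ℝ → ℝ} (hG : Continuous G) {η : ℝ} (hη : 0 < η) :
    ∃ ε : ℝ, 0 < ε ∧ ∀ Y Z : ℝ → ℝ, Continuous Y → Continuous Z →
      (∀ τ ∈ Icc (0 : ℝ) 1, |Y τ - S τ| ≤ ε) → (∀ τ ∈ Icc (0 : ℝ) 1, |Z τ - T τ| ≤ ε) →
      |(∫ τ in (0 : ℝ)..1, G (Y τ, Z τ)) - ∫ τ in (0 : ℝ)..1, G (S τ, T τ)| ≤ η := by
  have hK : IsCompact (Icc (-1 : ℝ) 1 ×ˢ Icc (-1 : ℝ) 1) := isCompact_Icc.prod isCompact_Icc
  have hU := hK.uniformContinuousOn_of_continuous hG.continuousOn
  rw [Metric.uniformContinuousOn_iff] at hU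
  obtain ⟨δ, hδ, hU⟩ := hU η hη
  refine ⟨min (δ / 2) (1 / 2), by positivity, fun Y Z hY hZ h1 h2 => ?_⟩
  have hb : ∀ {f g : ℝ → ℝ} {τ : ℝ}, |g τ| ≤ 1 / 2 → |f τ - g τ| ≤ min (δ / 2) (1 / 2) →
      f τ ∈ Icc (-1 : ℝ) 1 := by
    intro f g τ h3 h4
    have h5 := abs_le.1 (h4.trans (min_le_right _ _))
    have h6 := abs_le.1 h3
    exact ⟨by linarith, by linarith⟩
  have hI1 : IntervalIntegrable (fun τ => G (Y τ, Z τ)) volume 0 1 :=
    (hG.comp (hY.prodMk hZ)).intervalIntegrable _ _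
  have hI2 : IntervalIntegrable (fun τ => G (S τ, T τ)) volume 0 1 :=
    (hG.comp (hS.prodMk hT)).intervalIntegrable _ _
  rw [← intervalIntegral.integral_sub hI1 hI2]
  have := intervalIntegral.norm_integral_le_of_norm_le_const (a := (0 : ℝ)) (b := 1) (C := η)
    (f := fun τ => G (Y τ, Z τ) - G (S τ, T τ)) (by
      intro τ hτ
      rw [uIoc_of_le zero_le_one] at hτ
      have hτ' : τ ∈ Icc (0 : ℝ) 1 := ⟨hτ.1.le, hτ.2⟩
      have m1 : (Y τ, Z τ) ∈ Icc (-1 : ℝ) 1 ×ˢ Icc (-1 : ℝ) 1 :=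
        ⟨hb (hS1 τ hτ') (h1 τ hτ'), hb (hT1 τ hτ') (h2 τ hτ')⟩
      have m2 : (S τ, T τ) ∈ Icc (-1 : ℝ) 1 ×ˢ Icc (-1 : ℝ) 1 := by
        have a1 := abs_le.1 (hS1 τ hτ')
        have a2 := abs_le.1 (hT1 τ hτ')
        exact ⟨⟨by linarith, by linarith⟩, ⟨by linarith, by linarith⟩⟩
      have hd : dist (Y τ, Z τ) (S τ, T τ) < δ := by
        rw [Prod.dist_eq, Real.dist_eq, Real.dist_eq]
        have b1 := (h1 τ hτ').trans (min_le_left _ _)
        have b2 := (h2 τ hτ').trans (min_le_left _ _)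
        exact max_lt (by linarith) (by linarith)
      have := hU _ m1 _ m2 hd
      rw [Real.dist_eq] at this
      exact this.le)
  rw [Real.norm_eq_abs] at this
  simpa using this

/-! ### the limit profiles -/

/-- limit profile -/
def c12_S (k : ℕ) (τ : ℝ) : ℝ := Real.sin (k * Real.pi * τ) / (k * Real.pi)

lemma c12_S_cont (k : ℕ) : Continuous (c12_S k) := by unfold c12_S; fun_prop

lemma c12_S_le {k : ℕ} (hk : 1 ≤ k) (τ : ℝ) : |c12_S k τ| ≤ 1 / 2 := by
  unfold c12_S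
  have hk' : (1 : ℝ) ≤ k := by exact_mod_cast hk
  have hpi : 2 < (k : ℝ) * Real.pi := by nlinarith [Real.pi_gt_three]
  rw [abs_div, abs_of_pos (by linarith : 0 < (k : ℝ) * Real.pi)]
  exact div_le_div₀ zero_le_one (Real.abs_sin_le_one _) (by norm_num) hpi.le

lemma c12_int_zero (hN : 3 ≤ N) (hN5 : N ≤ 5) :
    (pm N + 2) * ∫ τ in (0 : ℝ)..1, |Real.sin (2 * Real.pi * τ)| ^ (pm N + 2) =
      (pm N + 1) * ∫ τ in (0 : ℝ)..1, |Real.sin (2 * Real.pi * τ)| ^ pm N := by
  have hp := c12_pm_pos hN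
  set g : ℝ → ℝ := fun τ => nl N (Real.sin (2 * Real.pi * τ)) * Real.cos (2 * Real.pi * τ) with hg
  have hsin : ∀ τ, HasDerivAt (fun τ => Real.sin (2 * Real.pi * τ))
      (Real.cos (2 * Real.pi * τ) * (2 * Real.pi)) τ := by
    intro τ
    have h : HasDerivAt (fun τ => Real.sin (2 * Real.pi * τ))
        (Real.cos (2 * Real.pi * τ) * (2 * Real.pi * 1)) τ :=
      ((hasDerivAt_id τ).const_mul (2 * Real.pi)).sin
    exact h.congr_deriv (by ring)
  have hcos : ∀ τ, HasDerivAt (fun τ => Real.cos (2 * Real.pi * τ))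
      (-Real.sin (2 * Real.pi * τ) * (2 * Real.pi)) τ := by
    intro τ
    have h : HasDerivAt (fun τ => Real.cos (2 * Real.pi * τ))
        (-Real.sin (2 * Real.pi * τ) * (2 * Real.pi * 1)) τ :=
      ((hasDerivAt_id τ).const_mul (2 * Real.pi)).cos
    exact h.congr_deriv (by ring)
  have hpow : ∀ w : ℝ, |w| ^ (pm N + 2) = |w| ^ pm N * w ^ 2 := by
    intro w
    rw [Real.rpow_add_of_nonneg (abs_nonneg w) hp.le (by norm_num)]
    congr 1
    rw [show (2 : ℝ) = ((2 : ℕ) : ℝ) by norm_num, Real.rpow_natCast, sq_abs]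
  have hd : ∀ τ, HasDerivAt g (2 * Real.pi * ((pm N + 1) * |Real.sin (2 * Real.pi * τ)| ^ pm N
      - (pm N + 2) * |Real.sin (2 * Real.pi * τ)| ^ (pm N + 2))) τ := by
    intro τ
    have h1 : HasDerivAt (fun τ => nl N (Real.sin (2 * Real.pi * τ)))
        (dnl N (Real.sin (2 * Real.pi * τ)) * (Real.cos (2 * Real.pi * τ) * (2 * Real.pi))) τ :=
      HasDerivAt.comp (h := fun τ => Real.sin (2 * Real.pi * τ)) (h₂ := nl N) τ
        (hasDerivAt_nl hN hN5 (Real.sin (2 * Real.pi * τ))) (hsin τ)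
    have h2 := h1.mul (hcos τ)
    refine h2.congr_deriv ?_
    rw [hpow]
    have hcs := Real.cos_sq' (2 * Real.pi * τ)
    unfold dnl nl
    linear_combination (2 * Real.pi * (pm N + 1) * |Real.sin (2 * Real.pi * τ)| ^ pm N) * hcs
  have hc1 : Continuous (fun τ => |Real.sin (2 * Real.pi * τ)| ^ pm N) :=
    (Real.continuous_rpow_const hp.le).comp (by fun_prop)
  have hc2 : Continuous (fun τ => |Real.sin (2 * Real.pi * τ)| ^ (pm N + 2)) :=
    (Real.continuous_rpow_const (by linarith)).comp (by fun_prop)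
  have h3 := intervalIntegral.integral_eq_sub_of_hasDerivAt (a := 0) (b := 1)
    (fun τ _ => hd τ) (by
      apply Continuous.intervalIntegrable
      exact continuous_const.mul ((continuous_const.mul hc1).sub (continuous_const.mul hc2)))
  have h4 : g 1 = 0 := by
    simp only [hg, mul_one, Real.sin_two_pi]
    unfold nl; simp
  have h5 : g 0 = 0 := by
    simp only [hg, mul_zero, Real.sin_zero]
    unfold nl; simp
  rw [h4, h5, sub_zero, intervalIntegral.integral_const_mul] at h3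
  have hpi := Real.pi_pos
  have h6 := (mul_eq_zero.1 h3).resolve_left (by positivity)
  have hi1 : IntervalIntegrable (fun τ => (pm N + 1) * |Real.sin (2 * Real.pi * τ)| ^ pm N)
      volume 0 1 := (continuous_const.mul hc1).intervalIntegrable _ _
  have hi2 : IntervalIntegrable (fun τ => (pm N + 2) * |Real.sin (2 * Real.pi * τ)| ^ (pm N + 2))
      volume 0 1 := (continuous_const.mul hc2).intervalIntegrable _ _
  rw [intervalIntegral.integral_sub hi1 hi2, intervalIntegral.integral_const_mul,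
    intervalIntegral.integral_const_mul] at h6
  linarith

lemma c12_int_cos (hN : 3 ≤ N) (hN5 : N ≤ 5) :
    ∫ τ in (0 : ℝ)..1, |Real.sin (2 * Real.pi * τ)| ^ pm N * Real.cos (2 * Real.pi * τ) = 0 := by
  have hp := c12_pm_pos hN
  have hsin : ∀ τ, HasDerivAt (fun τ => Real.sin (2 * Real.pi * τ))
      (Real.cos (2 * Real.pi * τ) * (2 * Real.pi)) τ := by
    intro τ
    have h : HasDerivAt (fun τ => Real.sin (2 * Real.pi * τ))
        (Real.cos (2 * Real.pi * τ) * (2 * Real.pi * 1)) τ :=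
      ((hasDerivAt_id τ).const_mul (2 * Real.pi)).sin
    exact h.congr_deriv (by ring)
  have hd : ∀ τ, HasDerivAt (fun τ => nl N (Real.sin (2 * Real.pi * τ)))
      (2 * Real.pi * (pm N + 1) * (|Real.sin (2 * Real.pi * τ)| ^ pm N
        * Real.cos (2 * Real.pi * τ))) τ := by
    intro τ
    have h1 : HasDerivAt (fun τ => nl N (Real.sin (2 * Real.pi * τ)))
        (dnl N (Real.sin (2 * Real.pi * τ)) * (Real.cos (2 * Real.pi * τ) * (2 * Real.pi))) τ :=
      HasDerivAt.comp (h := fun τ => Real.sin (2 * Real.pi * τ)) (h₂ := nl N) τ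
        (hasDerivAt_nl hN hN5 (Real.sin (2 * Real.pi * τ))) (hsin τ)
    refine h1.congr_deriv ?_
    unfold dnl; ring
  have hc1 : Continuous (fun τ => |Real.sin (2 * Real.pi * τ)| ^ pm N) :=
    (Real.continuous_rpow_const hp.le).comp (by fun_prop)
  have h3 := intervalIntegral.integral_eq_sub_of_hasDerivAt (a := 0) (b := 1)
    (fun τ _ => hd τ) (by
      apply Continuous.intervalIntegrable
      exact continuous_const.mul (hc1.mul (by fun_prop)))
  rw [intervalIntegral.integral_const_mul] at h3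
  have h4 : nl N (Real.sin (2 * Real.pi * 1)) - nl N (Real.sin (2 * Real.pi * 0)) = 0 := by
    rw [mul_one, mul_zero, Real.sin_two_pi, Real.sin_zero, sub_self]
  rw [h4] at h3
  have hpi := Real.pi_pos
  exact (mul_eq_zero.1 h3).resolve_left (by positivity)

lemma c12_int_sin_sq {k : ℕ} (hk : 1 ≤ k) :
    ∫ τ in (0 : ℝ)..1, Real.sin (k * Real.pi * τ) ^ 2 = 1 / 2 := by
  have hk' : (0 : ℝ) < k := by exact_mod_cast hk
  have hpi := Real.pi_pos
  have h := intervalIntegral.integral_comp_mul_left (a := 0) (b := 1) (c := (k : ℝ) * Real.pi)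
    (fun x => Real.sin x ^ 2) (by positivity)
  rw [h, mul_zero, mul_one, integral_sin_sq, Real.sin_zero, Real.sin_nat_mul_pi]
  simp
  field_simp

lemma c12_lim (hN : 3 ≤ N) (hN5 : N ≤ 5) :
    ((pm N + 2) * ∫ τ in (0 : ℝ)..1, NL N (c12_S 2 τ)) * (∫ τ in (0 : ℝ)..1, c12_S 1 τ ^ 2) <
      (∫ τ in (0 : ℝ)..1, dnl N (c12_S 2 τ) * c12_S 1 τ ^ 2) *
        (∫ τ in (0 : ℝ)..1, c12_S 2 τ ^ 2) := by
  have hp := c12_pm_pos hN
  have hpi := Real.pi_pos
  set m := ∫ τ in (0 : ℝ)..1, |Real.sin (2 * Real.pi * τ)| ^ pm N with hm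
  have hc1 : Continuous (fun τ => |Real.sin (2 * Real.pi * τ)| ^ pm N) :=
    (Real.continuous_rpow_const hp.le).comp (by fun_prop)
  have hmpos : 0 < m := by
    apply intervalIntegral.integral_pos zero_lt_one hc1.continuousOn
    · intro x _; positivity
    · refine ⟨1 / 4, ⟨by norm_num, by norm_num⟩, ?_⟩
      have : 2 * Real.pi * (1 / 4) = Real.pi / 2 := by ring
      rw [this, Real.sin_pi_div_two]; norm_num
  have hz := c12_int_zero hN hN5
  rw [← hm] at hz
  -- the powers of `S`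
  have hS : ∀ τ, c12_S 2 τ = (1 / (2 * Real.pi)) * Real.sin (2 * Real.pi * τ) := by
    intro τ; unfold c12_S; push_cast; ring
  have hc : (0 : ℝ) < 1 / (2 * Real.pi) := by positivity
  set c := 1 / (2 * Real.pi) with hcdef
  have e1 : (pm N + 2) * ∫ τ in (0 : ℝ)..1, NL N (c12_S 2 τ) =
      c ^ (pm N + 2) * ((pm N + 1) / (pm N + 2) * m) := by
    have h1 : ∀ τ, NL N (c12_S 2 τ) = c ^ (pm N + 2) / (pm N + 2) *
        |Real.sin (2 * Real.pi * τ)| ^ (pm N + 2) := by
      intro τ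
      unfold NL
      rw [hS, abs_mul, abs_of_pos hc, Real.mul_rpow hc.le (abs_nonneg _)]; ring
    simp only [h1]
    rw [intervalIntegral.integral_const_mul]
    have : (∫ τ in (0 : ℝ)..1, |Real.sin (2 * Real.pi * τ)| ^ (pm N + 2)) =
        (pm N + 1) * m / (pm N + 2) := by
      rw [eq_div_iff (by linarith)]; linarith
    rw [this]
    field_simp
  have e2 : (∫ τ in (0 : ℝ)..1, c12_S 1 τ ^ 2) = (2 * c) ^ 2 * (1 / 2) := by
    have h1 : ∀ τ, c12_S 1 τ ^ 2 = (2 * c) ^ 2 * Real.sin ((1 : ℕ) * Real.pi * τ) ^ 2 := by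
      intro τ
      unfold c12_S
      rw [hcdef, div_pow]
      push_cast
      field_simp
    simp only [h1]
    rw [intervalIntegral.integral_const_mul, c12_int_sin_sq le_rfl]
  have e4 : (∫ τ in (0 : ℝ)..1, c12_S 2 τ ^ 2) = c ^ 2 * (1 / 2) := by
    have h1 : ∀ τ, c12_S 2 τ ^ 2 = c ^ 2 * Real.sin ((2 : ℕ) * Real.pi * τ) ^ 2 := by
      intro τ
      rw [hS, mul_pow]; push_cast; ring
    simp only [h1]
    rw [intervalIntegral.integral_const_mul, c12_int_sin_sq (by norm_num)]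
  have e3 : (∫ τ in (0 : ℝ)..1, dnl N (c12_S 2 τ) * c12_S 1 τ ^ 2) =
      (pm N + 1) * c ^ pm N * ((2 * c) ^ 2 * (m / 2)) := by
    have h1 : ∀ τ, dnl N (c12_S 2 τ) * c12_S 1 τ ^ 2 = (pm N + 1) * c ^ pm N * ((2 * c) ^ 2 / 2) *
        (|Real.sin (2 * Real.pi * τ)| ^ pm N - |Real.sin (2 * Real.pi * τ)| ^ pm N
          * Real.cos (2 * Real.pi * τ)) := by
      intro τ
      unfold dnl
      rw [hS, abs_mul, abs_of_pos hc, Real.mul_rpow hc.le (abs_nonneg _)]
      have h2 : c12_S 1 τ ^ 2 = (2 * c) ^ 2 * ((1 - Real.cos (2 * Real.pi * τ)) / 2) := by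
        have h3 : c12_S 1 τ = (2 * c) * Real.sin (Real.pi * τ) := by
          unfold c12_S
          rw [hcdef]
          push_cast
          field_simp
        have h4 : Real.cos (2 * Real.pi * τ) = 1 - 2 * Real.sin (Real.pi * τ) ^ 2 := by
          have := Real.cos_two_mul (Real.pi * τ)
          have h5 := Real.sin_sq_add_cos_sq (Real.pi * τ)
          rw [show 2 * Real.pi * τ = 2 * (Real.pi * τ) by ring, this]
          linarith
        rw [h3, h4]; ring
      rw [h2]; ring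
    simp only [h1]
    have hi1 : IntervalIntegrable (fun τ => |Real.sin (2 * Real.pi * τ)| ^ pm N)
        volume 0 1 := hc1.intervalIntegrable _ _
    have hcc : Continuous (fun τ : ℝ => Real.cos (2 * Real.pi * τ)) := by fun_prop
    have hi2 : IntervalIntegrable (fun τ => |Real.sin (2 * Real.pi * τ)| ^ pm N
        * Real.cos (2 * Real.pi * τ)) volume 0 1 := (hc1.mul hcc).intervalIntegrable _ _
    rw [intervalIntegral.integral_const_mul, intervalIntegral.integral_sub hi1 hi2,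
      c12_int_cos hN hN5, sub_zero]
    ring
  rw [e1, e2, e3, e4]
  have hcp : c ^ (pm N + 2) = c ^ pm N * c ^ 2 := by
    rw [Real.rpow_add hc]
    congr 1
    rw [show (2 : ℝ) = ((2 : ℕ) : ℝ) by norm_num, Real.rpow_natCast]
  rw [hcp]
  have hcpos : 0 < c ^ pm N := Real.rpow_pos_of_pos hc _
  have hfac : 0 < c ^ pm N * c ^ 2 * c ^ 2 * m * (pm N + 1) := by positivity
  have hlt : 2 / (pm N + 2) < 1 := by
    rw [div_lt_one (by linarith)]; linarith
  have l1 : c ^ pm N * c ^ 2 * ((pm N + 1) / (pm N + 2) * m) * ((2 * c) ^ 2 * (1 / 2)) =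
      (c ^ pm N * c ^ 2 * c ^ 2 * m * (pm N + 1)) * (2 / (pm N + 2)) := by
    ring
  have l2 : (pm N + 1) * c ^ pm N * ((2 * c) ^ 2 * (m / 2)) * (c ^ 2 * (1 / 2)) =
      (c ^ pm N * c ^ 2 * c ^ 2 * m * (pm N + 1)) * 1 := by ring
  rw [l1, l2]
  exact mul_lt_mul_of_pos_left hlt hfac

lemma c12_lim5 (hN : 3 ≤ N) (hN5 : N ≤ 5) : 0 < ∫ τ in (0 : ℝ)..1, NL N (c12_S 2 τ) := by
  have hp := c12_pm_pos hN
  have hpi := Real.pi_pos
  apply intervalIntegral.integral_pos zero_lt_one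
    ((c12_NL_cont hN hN5).comp (c12_S_cont 2)).continuousOn
  · intro x _
    simp only [Function.comp]
    unfold NL; positivity
  · refine ⟨1 / 4, ⟨by norm_num, by norm_num⟩, ?_⟩
    have : c12_S 2 (1 / 4) ≠ 0 := by
      unfold c12_S
      have : ((2 : ℕ) : ℝ) * Real.pi * (1 / 4) = Real.pi / 2 := by push_cast; ring
      rw [this, Real.sin_pi_div_two]
      positivity
    simp only [Function.comp]
    unfold NL
    have := abs_pos.2 this
    positivity

lemma c12_lim6 : 0 < ∫ τ in (0 : ℝ)..1, c12_S 2 τ ^ 2 * c12_S 1 τ ^ 4 := by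
  have hpi := Real.pi_pos
  have h1 := c12_S_cont 1
  have h2 := c12_S_cont 2
  apply intervalIntegral.integral_pos zero_lt_one (Continuous.continuousOn (by fun_prop))
  · intro x _; positivity
  · refine ⟨1 / 4, ⟨by norm_num, by norm_num⟩, ?_⟩
    have e1 : c12_S 2 (1 / 4) ≠ 0 := by
      unfold c12_S
      have : ((2 : ℕ) : ℝ) * Real.pi * (1 / 4) = Real.pi / 2 := by push_cast; ring
      rw [this, Real.sin_pi_div_two]
      positivity
    have e2 : c12_S 1 (1 / 4) ≠ 0 := by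
      unfold c12_S
      have : ((1 : ℕ) : ℝ) * Real.pi * (1 / 4) = Real.pi / 4 := by push_cast; ring
      rw [this, Real.sin_pi_div_four]
      positivity
    positivity

lemma c12_lim2 {k : ℕ} (hk : 1 ≤ k) : 0 < ∫ τ in (0 : ℝ)..1, c12_S k τ ^ 2 := by
  have hk' : (0 : ℝ) < k := by exact_mod_cast hk
  have hpi := Real.pi_pos
  have h1 : ∀ τ, c12_S k τ ^ 2 = (1 / (k * Real.pi)) ^ 2 * Real.sin (k * Real.pi * τ) ^ 2 := by
    intro τ; unfold c12_S; ring
  simp only [h1]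
  rw [intervalIntegral.integral_const_mul, c12_int_sin_sq hk]
  positivity

/-! ### scaling -/

lemma c12_int_scale {L : ℝ} (hL : 0 < L) (F : ℝ → ℝ) :
    ∫ t in (0 : ℝ)..L, F t = L * ∫ τ in (0 : ℝ)..1, F (L * τ) := by
  rw [intervalIntegral.integral_comp_mul_left F hL.ne', mul_zero, mul_one, smul_eq_mul,
    ← mul_assoc, mul_inv_cancel₀ hL.ne', one_mul]

lemma c12_cI {L : ℝ} (hN : 3 ≤ N) (hL : 0 < L) (l : ℕ) (y0 yl : ℝ → ℝ) {G : ℝ → ℝ → ℝ}
    (hG : ∀ u v, G (L * u) (L * v) = L ^ (pm N + 2) * G u v) :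
    cI N l y0 yl L G = L * L ^ (pm N + 2) *
      ∫ τ in (0 : ℝ)..1, av N (fun s => G (y0 (L * τ) / L) (yl (L * τ) / L * Pz N l s)) := by
  unfold cI
  have key : ∫ τ in (0 : ℝ)..1, av N (fun s => G (y0 (L * τ)) (yl (L * τ) * Pz N l s)) =
      L ^ (pm N + 2) *
        ∫ τ in (0 : ℝ)..1, av N (fun s => G (y0 (L * τ) / L) (yl (L * τ) / L * Pz N l s)) := by
    rw [← intervalIntegral.integral_const_mul]
    apply intervalIntegral.integral_congr
    intro τ _
    simp only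
    rw [← av_mul_left hN]
    congr 1
    funext s
    rw [← hG]
    congr 1
    · field_simp
    · field_simp
  rw [c12_int_scale hL, key]; ring

lemma c12_pow2 {L : ℝ} (hL : 0 < L) : L ^ (pm N + 2) = L ^ pm N * L ^ 2 := by
  rw [Real.rpow_add hL]
  congr 1
  rw [show (2 : ℝ) = ((2 : ℕ) : ℝ) by norm_num, Real.rpow_natCast]

lemma c12_pow1 {L : ℝ} (hL : 0 < L) : L ^ (pm N + 1) = L ^ pm N * L := by
  rw [Real.rpow_add hL, Real.rpow_one]

lemma c12_dnl_mul (s u : ℝ) (hs : 0 < s) : dnl N (s * u) = s ^ pm N * dnl N u := by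
  unfold dnl
  rw [abs_mul, abs_of_pos hs, Real.mul_rpow hs.le (abs_nonneg _)]; ring

section scaled

variable {L : ℝ} {l : ℕ} {y0 yl : ℝ → ℝ}

lemma c12_cI1 (hN : 3 ≤ N) (hL : 0 < L) : cI N l y0 yl L (fun u v => nl N (u - v) * u) =
    L * L ^ (pm N + 2) * ∫ τ in (0 : ℝ)..1, c12_m1 N l (y0 (L * τ) / L) (yl (L * τ) / L) := by
  apply c12_cI hN hL
  intro u v
  rw [← mul_sub, nl_mul _ _ hL, c12_pow1 hL, c12_pow2 hL]; ring

lemma c12_cI2 (hN : 3 ≤ N) (hL : 0 < L) : cI N l y0 yl L (fun u v => nl N (u - v) * v) =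
    L * L ^ (pm N + 2) * ∫ τ in (0 : ℝ)..1, c12_m2 N l (y0 (L * τ) / L) (yl (L * τ) / L) := by
  apply c12_cI hN hL
  intro u v
  rw [← mul_sub, nl_mul _ _ hL, c12_pow1 hL, c12_pow2 hL]; ring

lemma c12_cI11 (hN : 3 ≤ N) (hL : 0 < L) : cI N l y0 yl L (fun u v => dnl N (u - v) * u ^ 2) =
    L * L ^ (pm N + 2) * ∫ τ in (0 : ℝ)..1, c12_m11 N l (y0 (L * τ) / L) (yl (L * τ) / L) := by
  apply c12_cI hN hL
  intro u v
  rw [← mul_sub, c12_dnl_mul _ _ hL, c12_pow2 hL]; ring

lemma c12_cI22 (hN : 3 ≤ N) (hL : 0 < L) : cI N l y0 yl L (fun u v => dnl N (u - v) * v ^ 2) =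
    L * L ^ (pm N + 2) * ∫ τ in (0 : ℝ)..1, c12_m22 N l (y0 (L * τ) / L) (yl (L * τ) / L) := by
  apply c12_cI hN hL
  intro u v
  rw [← mul_sub, c12_dnl_mul _ _ hL, c12_pow2 hL]; ring

lemma c12_cI12 (hN : 3 ≤ N) (hL : 0 < L) : cI N l y0 yl L (fun u v => dnl N (u - v) * (u * v)) =
    L * L ^ (pm N + 2) * ∫ τ in (0 : ℝ)..1, c12_m12 N l (y0 (L * τ) / L) (yl (L * τ) / L) := by
  apply c12_cI hN hL
  intro u v
  rw [← mul_sub, c12_dnl_mul _ _ hL, c12_pow2 hL]; ring

end scaled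

/-- the determinant identity -/
lemma c12_det {p h J1 J2 J11 J22 J12 : ℝ} (e1 : J1 = (p + 2) * h + J2)
    (e2 : J12 = (p + 1) * J2 + J22) (e3 : J11 = (p + 1) * J1 + J12) :
    (J11 - J1) * (J22 + J2) - J12 ^ 2 = p * ((p + 2) * h * (J22 + J2) - p * J2 ^ 2) := by
  subst e3 e2 e1; ring

/-! ### the theorem -/

/-- the two conditions from the scaled quantities -/
lemma c12_final (hN : 3 ≤ N) (hN5 : N ≤ 5) : ∃ ε η : ℝ, 0 < ε ∧ 0 < η ∧ ∀ᶠ l : ℕ in atTop, Odd l →
    ∀ (L : ℝ) (y0 yl : ℝ → ℝ), 0 < L → 2 * L ≤ η → Continuous y0 → Continuous yl →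
      (∀ τ ∈ Icc (0 : ℝ) 1, |y0 (L * τ) / L - c12_S 2 τ| ≤ ε) →
      (∀ τ ∈ Icc (0 : ℝ) 1, |yl (L * τ) / L - c12_S 1 τ| ≤ ε) →
      CondA N l y0 yl L ∧ CondB N l y0 yl L := by
  have hp := c12_pm_pos hN
  have cnl := c12_nl_cont hN hN5
  have cdnl := continuous_dnl hN hN5
  have cNL := c12_NL_cont hN hN5
  obtain ⟨C1, hC1, hm1⟩ := c12_m1_upper hN hN5
  obtain ⟨C2, hC2, hm2⟩ := c12_m2_upper hN hN5
  obtain ⟨c4, hc4, hm4⟩ := c12_gap_lower hN hN5
  have hlim := c12_lim hN hN5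
  have hx5 := c12_lim5 hN hN5
  have hx6 := c12_lim6
  have hx2 := c12_lim2 (k := 1) le_rfl
  have hx4 := c12_lim2 (k := 2) (by norm_num)
  set x2 := ∫ τ in (0 : ℝ)..1, c12_S 1 τ ^ 2 with hx2d
  set x3 := ∫ τ in (0 : ℝ)..1, dnl N (c12_S 2 τ) * c12_S 1 τ ^ 2 with hx3d
  set x4 := ∫ τ in (0 : ℝ)..1, c12_S 2 τ ^ 2 with hx4d
  set x5 := ∫ τ in (0 : ℝ)..1, NL N (c12_S 2 τ) with hx5d
  set x6 := ∫ τ in (0 : ℝ)..1, c12_S 2 τ ^ 2 * c12_S 1 τ ^ 4 with hx6d
  -- room in the strict inequality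
  obtain ⟨η, hη, hroom⟩ : ∃ η : ℝ, 0 < η ∧ ∀ z2 z3 z4 z5 r q : ℝ, |z2 - x2| ≤ η → |z3 - x3| ≤ η →
      |z4 - x4| ≤ η → |z5 - x5| ≤ η → |r| ≤ η → |q - 1| ≤ η →
      ((pm N + 2) * z5 + r) * z2 < z3 * q * z4 := by
    set Φ : ℝ × ℝ × ℝ × ℝ × ℝ × ℝ → ℝ := fun z =>
      z.2.1 * z.2.2.2.2.2 * z.2.2.1 - ((pm N + 2) * z.2.2.2.1 + z.2.2.2.2.1) * z.1 with hΦ
    have hΦc : Continuous Φ := by rw [hΦ]; fun_prop
    have hopen : IsOpen {z | 0 < Φ z} := isOpen_lt continuous_const hΦc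
    have hmem : ((x2, x3, x4, x5, 0, 1) : ℝ × ℝ × ℝ × ℝ × ℝ × ℝ) ∈ {z | 0 < Φ z} := by
      simp only [mem_ofPred_eq, hΦ]
      linarith
    obtain ⟨r, hr, hball⟩ := Metric.isOpen_iff.1 hopen _ hmem
    refine ⟨r / 2, by positivity, fun z2 z3 z4 z5 ρ q h2 h3 h4 h5 hρ hq => ?_⟩
    have : ((z2, z3, z4, z5, ρ, q) : ℝ × ℝ × ℝ × ℝ × ℝ × ℝ) ∈ Metric.ball
        ((x2, x3, x4, x5, 0, 1) : ℝ × ℝ × ℝ × ℝ × ℝ × ℝ) r := by
      rw [Metric.mem_ball]
      simp only [Prod.dist_eq, Real.dist_eq, sub_zero]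
      have hlt : r / 2 < r := by linarith
      exact max_lt (by linarith) (max_lt (by linarith) (max_lt (by linarith)
        (max_lt (by linarith) (max_lt (by linarith) (by linarith)))))
    have := hball this
    simp only [mem_ofPred_eq, hΦ] at this
    linarith
  -- the approximation
  set η' := min η (min (x5 / 2) (min (x6 / 2) (min (x2 / 2) (x4 / 2)))) with hη'
  have hη'pos : 0 < η' := by positivity
  have l5 : η' ≤ x5 / 2 := (min_le_right _ _).trans (min_le_left _ _)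
  have l6 : η' ≤ x6 / 2 := ((min_le_right _ _).trans (min_le_right _ _)).trans (min_le_left _ _)
  have l2 : η' ≤ x2 / 2 := (((min_le_right _ _).trans (min_le_right _ _)).trans
    (min_le_right _ _)).trans (min_le_left _ _)
  have l4 : η' ≤ x4 / 2 := (((min_le_right _ _).trans (min_le_right _ _)).trans
    (min_le_right _ _)).trans (min_le_right _ _)
  have l0 : η' ≤ η := min_le_left _ _
  have hS2 := fun (τ : ℝ) (_ : τ ∈ Icc (0 : ℝ) 1) => c12_S_le (k := 2) (by norm_num) τ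
  have hS1 := fun (τ : ℝ) (_ : τ ∈ Icc (0 : ℝ) 1) => c12_S_le (k := 1) le_rfl τ
  obtain ⟨ε2, hε2, a2⟩ := c12_close (c12_S_cont 2) (c12_S_cont 1) hS2 hS1
    (G := fun z => z.2 ^ 2) (by fun_prop) hη'pos
  obtain ⟨ε3, hε3, a3⟩ := c12_close (c12_S_cont 2) (c12_S_cont 1) hS2 hS1
    (G := fun z => dnl N z.1 * z.2 ^ 2) (by fun_prop) hη'pos
  obtain ⟨ε4, hε4, a4⟩ := c12_close (c12_S_cont 2) (c12_S_cont 1) hS2 hS1
    (G := fun z => z.1 ^ 2) (by fun_prop) hη'pos
  obtain ⟨ε5, hε5, a5⟩ := c12_close (c12_S_cont 2) (c12_S_cont 1) hS2 hS1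
    (G := fun z => NL N z.1) (by fun_prop) hη'pos
  obtain ⟨ε6, hε6, a6⟩ := c12_close (c12_S_cont 2) (c12_S_cont 1) hS2 hS1
    (G := fun z => z.1 ^ 2 * z.2 ^ 4) (by fun_prop) hη'pos
  set ε := min (1 / 2) (min ε2 (min ε3 (min ε4 (min ε5 ε6)))) with hε
  have hεpos : 0 < ε := by positivity
  have k0 : ε ≤ 1 / 2 := min_le_left _ _
  have k2 : ε ≤ ε2 := (min_le_right _ _).trans (min_le_left _ _)
  have k3 : ε ≤ ε3 := ((min_le_right _ _).trans (min_le_right _ _)).trans (min_le_left _ _)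
  have k4 : ε ≤ ε4 := (((min_le_right _ _).trans (min_le_right _ _)).trans
    (min_le_right _ _)).trans (min_le_left _ _)
  have k5 : ε ≤ ε5 := ((((min_le_right _ _).trans (min_le_right _ _)).trans
    (min_le_right _ _)).trans (min_le_right _ _)).trans (min_le_left _ _)
  have k6 : ε ≤ ε6 := ((((min_le_right _ _).trans (min_le_right _ _)).trans
    (min_le_right _ _)).trans (min_le_right _ _)).trans (min_le_right _ _)
  set D := (pm N + 2) * (x5 / 2) * (c4 * (x6 / 2)) with hD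
  have hDpos : 0 < D := by positivity
  refine ⟨ε, min η 1, hεpos, by positivity, ?_⟩
  have ev1 : ∀ᶠ l : ℕ in atTop, C1 * av N (fun s => Pz N l s ^ 2) < η := by
    have h1 := (av_Pz_sq_tendsto hN).const_mul C1
    rw [mul_zero] at h1
    exact h1.eventually (gt_mem_nhds hη)
  have ev2 := moment_ratio hN (pm N * C2 ^ 2 / D + 1)
  filter_upwards [ev1, ev2] with l hl1 hl2 hodd L y0 yl hL hLη hy0 hyl happ0 happl
  set a := av N (fun s => Pz N l s ^ 2) with ha
  set b := av N (fun s => Pz N l s ^ 4) with hb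
  have hapos : 0 < a := av_Pz_sq_pos hN l
  set Y : ℝ → ℝ := fun τ => y0 (L * τ) / L with hY
  set Z : ℝ → ℝ := fun τ => yl (L * τ) / L with hZ
  have cY : Continuous Y := by rw [hY]; fun_prop
  have cZ : Continuous Z := by rw [hZ]; fun_prop
  have bY : ∀ τ ∈ Icc (0 : ℝ) 1, |Y τ| ≤ 1 := by
    intro τ hτ
    have h1 := happ0 τ hτ
    have h2 := hS2 τ hτ
    have h3 := abs_le.1 (h1.trans k0)
    have h4 := abs_le.1 h2
    exact abs_le.2 ⟨by linarith, by linarith⟩
  have bZ : ∀ τ ∈ Icc (0 : ℝ) 1, |Z τ| ≤ 1 := by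
    intro τ hτ
    have h1 := happl τ hτ
    have h2 := hS1 τ hτ
    have h3 := abs_le.1 (h1.trans k0)
    have h4 := abs_le.1 h2
    exact abs_le.2 ⟨by linarith, by linarith⟩
  have A2 := a2 Y Z cY cZ (fun τ hτ => (happ0 τ hτ).trans k2) (fun τ hτ => (happl τ hτ).trans k2)
  have A3 := a3 Y Z cY cZ (fun τ hτ => (happ0 τ hτ).trans k3) (fun τ hτ => (happl τ hτ).trans k3)
  have A4 := a4 Y Z cY cZ (fun τ hτ => (happ0 τ hτ).trans k4) (fun τ hτ => (happl τ hτ).trans k4)
  have A5 := a5 Y Z cY cZ (fun τ hτ => (happ0 τ hτ).trans k5) (fun τ hτ => (happl τ hτ).trans k5)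
  have A6 := a6 Y Z cY cZ (fun τ hτ => (happ0 τ hτ).trans k6) (fun τ hτ => (happl τ hτ).trans k6)
  simp only at A2 A3 A4 A5 A6
  set z2 := ∫ τ in (0 : ℝ)..1, Z τ ^ 2 with hz2
  set z3 := ∫ τ in (0 : ℝ)..1, dnl N (Y τ) * Z τ ^ 2 with hz3
  set z4 := ∫ τ in (0 : ℝ)..1, Y τ ^ 2 with hz4
  set z5 := ∫ τ in (0 : ℝ)..1, NL N (Y τ) with hz5
  set z6 := ∫ τ in (0 : ℝ)..1, Y τ ^ 2 * Z τ ^ 4 with hz6
  rw [← hx2d] at A2
  rw [← hx3d] at A3
  rw [← hx4d] at A4
  rw [← hx5d] at A5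
  rw [← hx6d] at A6
  have z2pos : 0 < z2 := by have := (abs_le.1 A2).1; linarith
  have z4pos : 0 < z4 := by have := (abs_le.1 A4).1; linarith
  have z5low : x5 / 2 ≤ z5 := by have := (abs_le.1 A5).1; linarith
  have z6low : x6 / 2 ≤ z6 := by have := (abs_le.1 A6).1; linarith
  -- the scaled integrals
  set J1 := ∫ τ in (0 : ℝ)..1, c12_m1 N l (Y τ) (Z τ) with hJ1
  set J2 := ∫ τ in (0 : ℝ)..1, c12_m2 N l (Y τ) (Z τ) with hJ2
  set J11 := ∫ τ in (0 : ℝ)..1, c12_m11 N l (Y τ) (Z τ) with hJ11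
  set J22 := ∫ τ in (0 : ℝ)..1, c12_m22 N l (Y τ) (Z τ) with hJ22
  set J12 := ∫ τ in (0 : ℝ)..1, c12_m12 N l (Y τ) (Z τ) with hJ12
  set H := ∫ τ in (0 : ℝ)..1, c12_mh N l (Y τ) (Z τ) with hH
  have i1 : IntervalIntegrable (fun τ => c12_m1 N l (Y τ) (Z τ)) volume 0 1 :=
    ((c12_m1_cont hN hN5 l).comp (cY.prodMk cZ)).intervalIntegrable _ _
  have i2 : IntervalIntegrable (fun τ => c12_m2 N l (Y τ) (Z τ)) volume 0 1 :=
    ((c12_m2_cont hN hN5 l).comp (cY.prodMk cZ)).intervalIntegrable _ _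
  have i22 : IntervalIntegrable (fun τ => c12_m22 N l (Y τ) (Z τ)) volume 0 1 :=
    ((c12_m22_cont hN hN5 l).comp (cY.prodMk cZ)).intervalIntegrable _ _
  have i12 : IntervalIntegrable (fun τ => c12_m12 N l (Y τ) (Z τ)) volume 0 1 :=
    ((c12_m12_cont hN hN5 l).comp (cY.prodMk cZ)).intervalIntegrable _ _
  have ih : IntervalIntegrable (fun τ => c12_mh N l (Y τ) (Z τ)) volume 0 1 :=
    ((c12_mh_cont hN hN5 l).comp (cY.prodMk cZ)).intervalIntegrable _ _
  have E1 : J1 = (pm N + 2) * H + J2 := by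
    rw [hJ1, hH, hJ2, ← intervalIntegral.integral_const_mul,
      ← intervalIntegral.integral_add (ih.const_mul _) i2]
    apply intervalIntegral.integral_congr
    intro τ _
    exact c12_id1 hN hN5 l _ _
  have E2 : J12 = (pm N + 1) * J2 + J22 := by
    rw [hJ12, hJ2, hJ22, ← intervalIntegral.integral_const_mul,
      ← intervalIntegral.integral_add (i2.const_mul _) i22]
    apply intervalIntegral.integral_congr
    intro τ _
    exact c12_id2 hN hN5 l _ _
  have E3 : J11 = (pm N + 1) * J1 + J12 := by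
    rw [hJ11, hJ1, hJ12, ← intervalIntegral.integral_const_mul,
      ← intervalIntegral.integral_add (i1.const_mul _) i12]
    apply intervalIntegral.integral_congr
    intro τ _
    exact c12_id3 hN hN5 l _ _
  have iNL : IntervalIntegrable (fun τ => NL N (Y τ)) volume 0 1 :=
    (cNL.comp cY).intervalIntegrable _ _
  have B1 : J1 ≤ (pm N + 2) * z5 + C1 * a := by
    have h1 : ∫ τ in (0 : ℝ)..1, ((pm N + 2) * NL N (Y τ) + C1 * a) =
        (pm N + 2) * z5 + C1 * a := by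
      rw [intervalIntegral.integral_add (iNL.const_mul _) intervalIntegrable_const,
        intervalIntegral.integral_const_mul, intervalIntegral.integral_const]
      simp only [sub_zero, one_smul, hz5]
    rw [← h1]
    exact intervalIntegral.integral_mono_on zero_le_one i1
      ((iNL.const_mul _).add intervalIntegrable_const)
      (fun τ hτ => hm1 l hodd _ _ (bY τ hτ) (bZ τ hτ))
  have B2 : a * z3 ≤ -J2 := by
    have i3 : IntervalIntegrable (fun τ => dnl N (Y τ) * Z τ ^ 2) volume 0 1 :=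
      (((cdnl.comp cY)).mul (cZ.pow 2)).intervalIntegrable _ _
    rw [hz3, ← intervalIntegral.integral_const_mul, hJ2, ← intervalIntegral.integral_neg]
    apply intervalIntegral.integral_mono_on zero_le_one (i3.const_mul a) i2.neg
    intro τ _
    have := c12_m2_lower hN hN5 hodd (Y τ) (Z τ)
    calc _ = dnl N (Y τ) * Z τ ^ 2 * a := by ring
      _ ≤ _ := this
  have B3 : -J2 ≤ C2 * a := by
    have h1 : ∫ _τ in (0 : ℝ)..1, C2 * a = C2 * a := by
      rw [intervalIntegral.integral_const]; simp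
    rw [← h1, hJ2, ← intervalIntegral.integral_neg]
    exact intervalIntegral.integral_mono_on zero_le_one i2.neg intervalIntegrable_const
      (fun τ hτ => hm2 l hodd _ _ (bY τ hτ) (bZ τ hτ))
  have B4 : c4 * b * z6 ≤ J22 + J2 := by
    have i6 : IntervalIntegrable (fun τ => Y τ ^ 2 * Z τ ^ 4) volume 0 1 :=
      ((cY.pow 2).mul (cZ.pow 4)).intervalIntegrable _ _
    rw [hJ22, hJ2, ← intervalIntegral.integral_add i22 i2, hz6,
      ← intervalIntegral.integral_const_mul]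
    apply intervalIntegral.integral_mono_on zero_le_one (i6.const_mul _) (i22.add i2)
    intro τ hτ
    have := hm4 l hodd _ _ (bY τ hτ) (bZ τ hτ)
    calc _ = c4 * (Y τ ^ 2 * Z τ ^ 4) * b := by ring
      _ ≤ _ := this
  have B5 : z5 ≤ H := by
    rw [hz5, hH]
    exact intervalIntegral.integral_mono_on zero_le_one iNL ih
      (fun τ _ => c12_mh_lower hN hN5 hodd _ _)
  have B6 : 0 ≤ -J2 := by
    refine le_trans ?_ B2
    apply mul_nonneg hapos.le
    rw [hz3]
    apply intervalIntegral.integral_nonneg zero_le_one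
    intro τ _
    apply mul_nonneg _ (sq_nonneg _)
    unfold dnl
    positivity
  have hK : 0 < L * L ^ (pm N + 2) := by positivity
  constructor
  · -- condition A
    unfold CondA
    rw [c12_cI1 hN hL, c12_cI2 hN hL]
    have e0 : ∫ t in (0 : ℝ)..L, Real.exp (-2 * t) * y0 t ^ 2 =
        L ^ 3 * ∫ τ in (0 : ℝ)..1, Real.exp (-2 * (L * τ)) * Y τ ^ 2 := by
      rw [c12_int_scale hL, ← intervalIntegral.integral_const_mul,
        ← intervalIntegral.integral_const_mul]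
      apply intervalIntegral.integral_congr
      intro τ _
      simp only [hY]
      field_simp
    have el : ∫ t in (0 : ℝ)..L, Real.exp (-2 * t) * (yl t ^ 2 * a) =
        L ^ 3 * (a * ∫ τ in (0 : ℝ)..1, Real.exp (-2 * (L * τ)) * Z τ ^ 2) := by
      rw [c12_int_scale hL, ← intervalIntegral.integral_const_mul,
        ← intervalIntegral.integral_const_mul, ← intervalIntegral.integral_const_mul]
      apply intervalIntegral.integral_congr
      intro τ _
      simp only [hZ]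
      field_simp
    rw [e0, el]
    set F0 := ∫ τ in (0 : ℝ)..1, Real.exp (-2 * (L * τ)) * Y τ ^ 2 with hF0
    set Fl := ∫ τ in (0 : ℝ)..1, Real.exp (-2 * (L * τ)) * Z τ ^ 2 with hFl
    have iY : IntervalIntegrable (fun τ => Y τ ^ 2) volume 0 1 := (cY.pow 2).intervalIntegrable _ _
    have iZ : IntervalIntegrable (fun τ => Z τ ^ 2) volume 0 1 := (cZ.pow 2).intervalIntegrable _ _
    have cE : Continuous (fun τ : ℝ => Real.exp (-2 * (L * τ))) := by fun_prop
    have iEY : IntervalIntegrable (fun τ => Real.exp (-2 * (L * τ)) * Y τ ^ 2) volume 0 1 :=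
      (cE.mul (cY.pow 2)).intervalIntegrable _ _
    have iEZ : IntervalIntegrable (fun τ => Real.exp (-2 * (L * τ)) * Z τ ^ 2) volume 0 1 :=
      (cE.mul (cZ.pow 2)).intervalIntegrable _ _
    have hexp : ∀ τ ∈ Icc (0 : ℝ) 1, 1 - 2 * L ≤ Real.exp (-2 * (L * τ)) ∧
        Real.exp (-2 * (L * τ)) ≤ 1 := by
      intro τ hτ
      constructor
      · have h1 := Real.add_one_le_exp (-2 * (L * τ))
        have h2 : L * τ ≤ L * 1 := mul_le_mul_of_nonneg_left hτ.2 hL.le
        linarith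
      · rw [Real.exp_le_one_iff]
        have : 0 ≤ L * τ := mul_nonneg hL.le hτ.1
        linarith
    set q := 1 - 2 * L with hq
    have g0 : q * z4 ≤ F0 := by
      rw [hz4, hF0, ← intervalIntegral.integral_const_mul]
      apply intervalIntegral.integral_mono_on zero_le_one (iY.const_mul q) iEY
      intro τ hτ
      exact mul_le_mul_of_nonneg_right (hexp τ hτ).1 (sq_nonneg _)
    have gl : Fl ≤ z2 := by
      rw [hz2, hFl]
      apply intervalIntegral.integral_mono_on zero_le_one iEZ iZ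
      intro τ hτ
      calc _ ≤ 1 * Z τ ^ 2 := mul_le_mul_of_nonneg_right (hexp τ hτ).2 (sq_nonneg _)
        _ = _ := one_mul _
    have hexpL : ∀ τ ∈ Icc (0 : ℝ) 1, Real.exp (-2 * L) ≤ Real.exp (-2 * (L * τ)) := by
      intro τ hτ
      apply Real.exp_le_exp.2
      have h2 : L * τ ≤ L * 1 := mul_le_mul_of_nonneg_left hτ.2 hL.le
      linarith
    have F0pos : 0 < F0 := by
      have : Real.exp (-2 * L) * z4 ≤ F0 := by
        rw [hz4, hF0, ← intervalIntegral.integral_const_mul]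
        apply intervalIntegral.integral_mono_on zero_le_one (iY.const_mul _) iEY
        intro τ hτ
        exact mul_le_mul_of_nonneg_right (hexpL τ hτ) (sq_nonneg _)
      have h2 : 0 < Real.exp (-2 * L) * z4 := by positivity
      linarith
    have Flpos : 0 < Fl := by
      have : Real.exp (-2 * L) * z2 ≤ Fl := by
        rw [hz2, hFl, ← intervalIntegral.integral_const_mul]
        apply intervalIntegral.integral_mono_on zero_le_one (iZ.const_mul _) iEZ
        intro τ hτ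
        exact mul_le_mul_of_nonneg_right (hexpL τ hτ) (sq_nonneg _)
      have h2 : 0 < Real.exp (-2 * L) * z2 := by positivity
      linarith
    have hroom' := hroom z2 z3 z4 z5 (C1 * a) q (A2.trans l0) (A3.trans l0) (A4.trans l0)
      (A5.trans l0) (by rw [abs_of_pos (by positivity)]; exact hl1.le) (by
        rw [hq, show 1 - 2 * L - 1 = -(2 * L) by ring, abs_neg, abs_of_pos (by positivity)]
        exact hLη.trans (min_le_left _ _))
    have main : J1 * (a * Fl) < -J2 * F0 := by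
      have s1 : J1 * Fl ≤ ((pm N + 2) * z5 + C1 * a) * z2 := by
        have t1 : J1 * Fl ≤ ((pm N + 2) * z5 + C1 * a) * Fl :=
          mul_le_mul_of_nonneg_right B1 Flpos.le
        have t2 : 0 ≤ (pm N + 2) * z5 + C1 * a := by
          have : 0 ≤ z5 := by linarith
          positivity
        exact t1.trans (mul_le_mul_of_nonneg_left gl t2)
      have s2 : z3 * q * z4 ≤ z3 * F0 := by
        have : 0 ≤ z3 := by
          rw [hz3]
          apply intervalIntegral.integral_nonneg zero_le_one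
          intro τ _
          apply mul_nonneg _ (sq_nonneg _)
          unfold dnl
          positivity
        calc z3 * q * z4 = z3 * (q * z4) := by ring
          _ ≤ z3 * F0 := mul_le_mul_of_nonneg_left g0 this
      have s3 : a * z3 * F0 ≤ -J2 * F0 := mul_le_mul_of_nonneg_right B2 F0pos.le
      calc J1 * (a * Fl) = a * (J1 * Fl) := by ring
        _ ≤ a * (((pm N + 2) * z5 + C1 * a) * z2) := mul_le_mul_of_nonneg_left s1 hapos.le
        _ < a * (z3 * q * z4) := mul_lt_mul_of_pos_left hroom' hapos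
        _ ≤ a * (z3 * F0) := mul_le_mul_of_nonneg_left s2 hapos.le
        _ = a * z3 * F0 := by ring
        _ ≤ -J2 * F0 := s3
    rw [div_lt_div_iff₀ (by positivity) (by positivity)]
    have : 0 < L * L ^ (pm N + 2) * L ^ 3 := by positivity
    calc L * L ^ (pm N + 2) * J1 * (L ^ 3 * (a * Fl))
        = (L * L ^ (pm N + 2) * L ^ 3) * (J1 * (a * Fl)) := by ring
      _ < (L * L ^ (pm N + 2) * L ^ 3) * (-J2 * F0) := mul_lt_mul_of_pos_left main this
      _ = _ := by ring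
  · -- condition B
    unfold CondB
    rw [c12_cI1 hN hL, c12_cI2 hN hL, c12_cI11 hN hL, c12_cI22 hN hL, c12_cI12 hN hL]
    have hdet := c12_det E1 E2 E3
    have hb0 : 0 ≤ b := by
      rw [hb, ← av_const hN 0]
      have h2 := c12_P_cont (N := N) l
      exact av_mono hN (by fun_prop) (by fun_prop) (fun s _ => by positivity)
    have hpos : 0 < (pm N + 2) * H * (J22 + J2) - pm N * J2 ^ 2 := by
      have s1 : D * b ≤ (pm N + 2) * H * (J22 + J2) := by
        have t1 : c4 * b * (x6 / 2) ≤ J22 + J2 := by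
          refine le_trans ?_ B4
          exact mul_le_mul_of_nonneg_left z6low (by positivity)
        have t2 : (pm N + 2) * (x5 / 2) ≤ (pm N + 2) * H :=
          mul_le_mul_of_nonneg_left (z5low.trans B5) (by linarith)
        calc D * b = ((pm N + 2) * (x5 / 2)) * (c4 * b * (x6 / 2)) := by rw [hD]; ring
          _ ≤ (pm N + 2) * H * (J22 + J2) := by
            apply mul_le_mul t2 t1 (by positivity)
            have : 0 ≤ H := by linarith
            positivity
      have s2 : D * ((pm N * C2 ^ 2 / D + 1) * a ^ 2) ≤ D * b :=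
        mul_le_mul_of_nonneg_left hl2 hDpos.le
      have s3 : D * ((pm N * C2 ^ 2 / D + 1) * a ^ 2) = pm N * (C2 * a) ^ 2 + D * a ^ 2 := by
        field_simp
      have s4 : J2 ^ 2 ≤ (C2 * a) ^ 2 := by
        have : (-J2) ^ 2 ≤ (C2 * a) ^ 2 := pow_le_pow_left₀ B6 B3 2
        rwa [neg_sq] at this
      have s5 : pm N * J2 ^ 2 ≤ pm N * (C2 * a) ^ 2 := mul_le_mul_of_nonneg_left s4 hp.le
      have s6 : 0 < D * a ^ 2 := by positivity
      linarith
    have hfin : (L * L ^ (pm N + 2) * J11 - L * L ^ (pm N + 2) * J1)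
        * (L * L ^ (pm N + 2) * J22 + L * L ^ (pm N + 2) * J2)
        - (L * L ^ (pm N + 2) * J12) ^ 2 = (L * L ^ (pm N + 2)) ^ 2 *
          (pm N * ((pm N + 2) * H * (J22 + J2) - pm N * J2 ^ 2)) := by
      rw [← hdet]; ring
    rw [hfin]
    positivity

/-- the two conditions hold in the thin limit -/
theorem cond_AB (hN : 3 ≤ N) (hN5 : N ≤ 5) : ∃ δ : ℝ, 0 < δ ∧ ∀ᶠ l : ℕ in atTop, Odd l →
    ∀ L lam : ℝ, 0 < L → L < δ → |L * (l + cc N) - Real.sqrt 3 * Real.pi| < δ →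
      |L ^ 2 * lam - 4 * Real.pi ^ 2| < δ → yf (cc N) lam L = 0 → yf (l + cc N) lam L = 0 →
      CondA N l (yf (cc N) lam) (yf (l + cc N) lam) L ∧
      CondB N l (yf (cc N) lam) (yf (l + cc N) lam) L := by
  obtain ⟨ε, η, hε, hη, hev⟩ := c12_final hN hN5
  have hNr : (3 : ℝ) ≤ N := by exact_mod_cast hN
  have hNr5 : (N : ℝ) ≤ 5 := by exact_mod_cast hN5
  have hcc0 : 0 ≤ cc N := by unfold cc; linarith
  have hcc : cc N ≤ 3 / 2 := by unfold cc; linarith
  obtain ⟨δ1, hδ1, t1⟩ := thin_limit (k := 2) (by norm_num) (κ := 0) le_rfl hε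
  obtain ⟨δ2, hδ2, t2⟩ := thin_limit (k := 1) le_rfl (κ := Real.sqrt 3 * Real.pi)
    (by positivity) hε
  refine ⟨min (min (δ1 / 2) (δ2)) (η / 2), by positivity, ?_⟩
  filter_upwards [hev] with l hl hodd L lam hL hLδ hLl hLlam _ _
  have d1 : L < δ1 / 2 := lt_of_lt_of_le hLδ ((min_le_left _ _).trans (min_le_left _ _))
  have d2 : L < δ2 := lt_of_lt_of_le hLδ ((min_le_left _ _).trans (min_le_right _ _))
  have d3 : L < η / 2 := lt_of_lt_of_le hLδ (min_le_right _ _)
  apply hl hodd L _ _ hL (by linarith) (yf_contDiff _ _).continuous (yf_contDiff _ _).continuous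
  · intro τ hτ
    have := (t1 (cc N) lam L hL (by linarith) hcc0 (by
      rw [sub_zero, abs_of_nonneg (by positivity)]
      nlinarith) (by
      have h1 : (0 : ℝ) ^ 2 + (((2 : ℕ) : ℝ) * Real.pi) ^ 2 = 4 * Real.pi ^ 2 := by push_cast; ring
      rw [h1]
      refine lt_of_lt_of_le hLlam ?_
      exact ((min_le_left _ _).trans (min_le_left _ _)).trans (by linarith)) τ hτ).1
    exact this
  · intro τ hτ
    have := (t2 (l + cc N) lam L hL d2 (by positivity) (by
      refine lt_of_lt_of_le hLl ((min_le_left _ _).trans (min_le_right _ _))) (by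
      have h1 : (Real.sqrt 3 * Real.pi) ^ 2 + (((1 : ℕ) : ℝ) * Real.pi) ^ 2 = 4 * Real.pi ^ 2 := by
        rw [mul_pow, Real.sq_sqrt (by norm_num)]; push_cast; ring
      rw [h1]
      exact lt_of_lt_of_le hLlam ((min_le_left _ _).trans (min_le_right _ _))) τ hτ).1
    exact this

end Pool.Agent.helper13.BN
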