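import Pool.Agent.helper41.BN.Pw

/-!
# BN-C3: pointwise inequalities for `nl`, `dnl`, `NL` (symmetrised)
-/

set_option autoImplicit false
open MeasureTheory Filter Topology Set Metric
open scoped ContDiff

noncomputable section
namespace Pool.Agent.helper13.BN
variable {N : ℕ}

lemma c12_pm_pos (hN : 3 ≤ N) : 0 < pm N := by
  unfold pm
  have : (3 : ℝ) ≤ N := by exact_mod_cast hN
  apply div_pos (by norm_num); linarith

lemma c12_pm_ge_one (hN : 3 ≤ N) (hN5 : N ≤ 5) : 1 ≤ pm N := by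
  have := pw_pm_ge hN hN5; linarith

lemma c12_pm_le (hN : 3 ≤ N) : pm N ≤ 4 := by
  unfold pm
  have : (3 : ℝ) ≤ N := by exact_mod_cast hN
  rw [div_le_iff₀ (by linarith)]; linarith

/-- midpoint convexity of `|x|^q`, `q ≥ 1` -/
lemma c12_conv {q : ℝ} (hq : 1 ≤ q) (y s : ℝ) :
    |y| ^ q ≤ (|y + s| ^ q + |y - s| ^ q) / 2 := by
  have h1 : |y| ≤ (1 / 2 : ℝ) * |y + s| + (1 / 2 : ℝ) * |y - s| := by
    have : y = (1 / 2 : ℝ) * (y + s) + (1 / 2 : ℝ) * (y - s) := by ring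
    calc |y| = |(1 / 2 : ℝ) * (y + s) + (1 / 2 : ℝ) * (y - s)| := by rw [← this]
      _ ≤ |(1 / 2 : ℝ) * (y + s)| + |(1 / 2 : ℝ) * (y - s)| := abs_add_le _ _
      _ = _ := by rw [abs_mul, abs_mul, abs_of_pos (by norm_num : (0 : ℝ) < 1 / 2)]
  have h2 := (convexOn_rpow hq).2 (mem_Ici.2 (abs_nonneg (y + s))) (mem_Ici.2 (abs_nonneg (y - s)))
    (by norm_num : (0 : ℝ) ≤ 1 / 2) (by norm_num : (0 : ℝ) ≤ 1 / 2) (by norm_num)
  simp only [smul_eq_mul] at h2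
  calc |y| ^ q ≤ ((1 / 2 : ℝ) * |y + s| + (1 / 2 : ℝ) * |y - s|) ^ q :=
        Real.rpow_le_rpow (abs_nonneg y) h1 (by linarith)
    _ ≤ _ := h2
    _ = _ := by ring

/-- P5 -/
lemma c12_NL_conv (hN : 3 ≤ N) (y s : ℝ) : NL N y ≤ (NL N (y + s) + NL N (y - s)) / 2 := by
  have hp := c12_pm_pos hN
  have h := c12_conv (q := pm N + 2) (by linarith) y s
  unfold NL
  rw [← add_div, div_div, mul_comm (pm N + 2) 2, ← div_div]
  exact div_le_div_of_nonneg_right h (by linarith)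

lemma c12_dnl_conv (hN : 3 ≤ N) (hN5 : N ≤ 5) (y s : ℝ) :
    dnl N y ≤ (dnl N (y + s) + dnl N (y - s)) / 2 := by
  have hp := c12_pm_ge_one hN hN5
  have h := c12_conv hp y s
  unfold dnl
  nlinarith

/-- P1 for `s ≥ 0` -/
lemma c12_P1_aux (hN : 3 ≤ N) (hN5 : N ≤ 5) (y : ℝ) {s : ℝ} (hs : 0 ≤ s) :
    dnl N y * s ≤ (nl N (y + s) - nl N (y - s)) / 2 := by
  have hd : ∀ t, HasDerivAt (fun t => (nl N (y + t) - nl N (y - t)) / 2 - dnl N y * t)
      ((dnl N (y + t) + dnl N (y - t)) / 2 - dnl N y) t := by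
    intro t
    have h1 : HasDerivAt (fun t => nl N (y + t)) (dnl N (y + t)) t :=
      (hasDerivAt_nl hN hN5 (y + t)).comp_const_add y t
    have h2 : HasDerivAt (fun t => nl N (y - t)) (-dnl N (y - t)) t :=
      (hasDerivAt_nl hN hN5 (y - t)).comp_const_sub y t
    have h3 : HasDerivAt (fun t => (nl N (y + t) - nl N (y - t)) / 2 - dnl N y * t)
        ((dnl N (y + t) - -dnl N (y - t)) / 2 - dnl N y * 1) t :=
      ((h1.sub h2).div_const 2).sub ((hasDerivAt_id t).const_mul (dnl N y))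
    exact h3.congr_deriv (by ring)
  have hmono : Monotone (fun t => (nl N (y + t) - nl N (y - t)) / 2 - dnl N y * t) := by
    apply monotone_of_deriv_nonneg (fun t => (hd t).differentiableAt)
    intro t
    rw [(hd t).deriv]
    have := c12_dnl_conv hN hN5 y t
    linarith
  have := hmono hs
  simp at this
  linarith

/-- P1 -/
lemma c12_P1 (hN : 3 ≤ N) (hN5 : N ≤ 5) (y s : ℝ) :
    dnl N y * s ^ 2 ≤ (nl N (y + s) - nl N (y - s)) / 2 * s := by
  rcases le_total 0 s with hs | hs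
  · have := mul_le_mul_of_nonneg_right (c12_P1_aux hN hN5 y hs) hs
    calc _ = dnl N y * s * s := by ring
      _ ≤ _ := this
  · have hs' : 0 ≤ -s := by linarith
    have := mul_le_mul_of_nonneg_right (c12_P1_aux hN hN5 y hs') hs'
    rw [sub_neg_eq_add, ← sub_eq_add_neg] at this
    calc _ = dnl N y * -s * -s := by ring
      _ ≤ _ := this
      _ = _ := by ring

lemma c12_rpow_le {q x : ℝ} (hq : 0 ≤ q) {M : ℝ} (hx : |x| ≤ M) : |x| ^ q ≤ M ^ q :=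
  Real.rpow_le_rpow (abs_nonneg x) hx hq

/-- P2 -/
lemma c12_P2 (hN : 3 ≤ N) (hN5 : N ≤ 5) : ∃ C : ℝ, 0 < C ∧ ∀ y s : ℝ, |y| ≤ 1 → |s| ≤ 1 →
    (nl N (y + s) - nl N (y - s)) / 2 * s ≤ C * s ^ 2 := by
  obtain ⟨C, hC, h⟩ := nl_lip hN hN5
  have hp := c12_pm_pos hN
  refine ⟨C * (2 ^ pm N + 2 ^ pm N), by positivity, fun y s hy hs => ?_⟩
  have h1 := h (y + s) (y - s)
  have h2 : |y + s| ≤ 2 := (abs_add_le _ _).trans (by linarith)
  have h3 : |y - s| ≤ 2 := (abs_sub _ _).trans (by linarith)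
  have h4 : |y + s - (y - s)| = 2 * |s| := by
    rw [show y + s - (y - s) = 2 * s by ring, abs_mul, abs_of_pos (by norm_num : (0 : ℝ) < 2)]
  rw [h4] at h1
  have h5 : |nl N (y + s) - nl N (y - s)| ≤ C * (2 ^ pm N + 2 ^ pm N) * (2 * |s|) := by
    refine h1.trans ?_
    gcongr
  have h6 : (nl N (y + s) - nl N (y - s)) / 2 * s ≤ |nl N (y + s) - nl N (y - s)| / 2 * |s| := by
    calc _ ≤ |(nl N (y + s) - nl N (y - s)) / 2 * s| := le_abs_self _
      _ = _ := by rw [abs_mul, abs_div, abs_of_pos (by norm_num : (0 : ℝ) < 2)]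
  refine h6.trans ?_
  have h7 : |s| * |s| = s ^ 2 := by rw [← sq, sq_abs]
  calc |nl N (y + s) - nl N (y - s)| / 2 * |s|
      ≤ (C * (2 ^ pm N + 2 ^ pm N) * (2 * |s|)) / 2 * |s| := by gcongr
    _ = C * (2 ^ pm N + 2 ^ pm N) * (|s| * |s|) := by ring
    _ = _ := by rw [h7]

/-- P3 -/
lemma c12_P3 (hN : 3 ≤ N) (hN5 : N ≤ 5) : ∃ C : ℝ, 0 < C ∧ ∀ y s : ℝ, |y| ≤ 1 → |s| ≤ 1 →
    |nl N (y - s) - nl N y + dnl N y * s| ≤ C * s ^ 2 := by
  obtain ⟨C, hC, h⟩ := nl_taylor hN hN5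
  have hp := c12_pm_ge_one hN hN5
  refine ⟨C * (1 + 1), by positivity, fun y s hy hs => ?_⟩
  have h1 := h y (-s)
  have h2 : nl N (y + -s) - nl N y - dnl N y * -s = nl N (y - s) - nl N y + dnl N y * s := by
    rw [← sub_eq_add_neg]; ring
  rw [h2, abs_neg, neg_sq] at h1
  refine h1.trans ?_
  have h3 : |y| ^ (pm N - 1) ≤ 1 := Real.rpow_le_one (abs_nonneg y) hy (by linarith)
  have h4 : |s| ^ (pm N - 1) ≤ 1 := Real.rpow_le_one (abs_nonneg s) hs (by linarith)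
  gcongr

lemma c12_pm3 : pm 3 = 4 := by unfold pm; norm_num

lemma c12_pm4 : pm 4 = 2 := by unfold pm; norm_num

lemma c12_nl3 (u : ℝ) : nl 3 u = u ^ 5 := by
  unfold nl
  rw [c12_pm3]
  have : |u| ^ (4 : ℝ) = u ^ 4 := by
    rw [show (4 : ℝ) = ((4 : ℕ) : ℝ) by norm_num, Real.rpow_natCast, ← abs_pow,
      abs_of_nonneg (by positivity)]
  rw [this]; ring

lemma c12_dnl3 (u : ℝ) : dnl 3 u = 5 * u ^ 4 := by
  unfold dnl
  rw [c12_pm3]
  have : |u| ^ (4 : ℝ) = u ^ 4 := by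
    rw [show (4 : ℝ) = ((4 : ℕ) : ℝ) by norm_num, Real.rpow_natCast, ← abs_pow,
      abs_of_nonneg (by positivity)]
  rw [this]; ring

lemma c12_nl4 (u : ℝ) : nl 4 u = u ^ 3 := by
  unfold nl
  rw [c12_pm4]
  have : |u| ^ (2 : ℝ) = u ^ 2 := by
    rw [show (2 : ℝ) = ((2 : ℕ) : ℝ) by norm_num, Real.rpow_natCast, sq_abs]
  rw [this]; ring

lemma c12_dnl4 (u : ℝ) : dnl 4 u = 3 * u ^ 2 := by
  unfold dnl
  rw [c12_pm4]
  have : |u| ^ (2 : ℝ) = u ^ 2 := by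
    rw [show (2 : ℝ) = ((2 : ℕ) : ℝ) by norm_num, Real.rpow_natCast, sq_abs]
  rw [this]; ring

/-- signed cube root -/
def c12_th (u : ℝ) : ℝ := |u| ^ ((4 : ℝ) / 3 - 2) * u

lemma c12_th_cube (u : ℝ) : c12_th u ^ 3 = u := by
  unfold c12_th
  by_cases hu : u = 0
  · subst hu; simp
  · have h : 0 < |u| := abs_pos.2 hu
    rw [mul_pow, ← Real.rpow_natCast (|u| ^ ((4 : ℝ) / 3 - 2)) 3, ← Real.rpow_mul h.le]
    have : ((4 : ℝ) / 3 - 2) * ((3 : ℕ) : ℝ) = -((2 : ℕ) : ℝ) := by norm_num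
    rw [this, Real.rpow_neg h.le, Real.rpow_natCast, sq_abs]
    field_simp

lemma c12_th_diff {a b : ℝ} (hab : a ≤ b) (ha : |a| ≤ 2) (hb : |b| ≤ 2) :
    (b - a) / 12 ≤ c12_th b - c12_th a := by
  set α := c12_th a with hα
  set β := c12_th b with hβ
  have h1 : α ^ 3 = a := c12_th_cube a
  have h2 : β ^ 3 = b := c12_th_cube b
  have hbd : ∀ {x y : ℝ}, x ^ 3 = y → |y| ≤ 2 → |x| ≤ 2 := by
    intro x y hxy hy
    by_contra h
    push Not at h
    have h3 : |x| ^ 3 = |y| := by rw [← abs_pow, hxy]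
    have h4 : (2 : ℝ) ^ 3 < |x| ^ 3 := pow_lt_pow_left₀ h (by norm_num) (by norm_num)
    rw [h3] at h4
    linarith
  have hA := abs_le.1 (hbd h1 ha)
  have hB := abs_le.1 (hbd h2 hb)
  have hle : α ≤ β := by
    by_contra h
    push Not at h
    have : β ^ 3 < α ^ 3 := by
      have := (Odd.strictMono_pow (R := ℝ) (n := 3) (by decide)) h
      exact this
    rw [h1, h2] at this
    linarith
  have h3 : b - a = (β - α) * (β ^ 2 + α * β + α ^ 2) := by rw [← h1, ← h2]; ring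
  have h4 : β ^ 2 + α * β + α ^ 2 ≤ 12 := by nlinarith
  rw [h3]
  have h5 : (β - α) * (β ^ 2 + α * β + α ^ 2) ≤ (β - α) * 12 :=
    mul_le_mul_of_nonneg_left h4 (by linarith)
  linarith

lemma c12_hasDerivAt_dnl5 (u : ℝ) : HasDerivAt (dnl 5) (28 / 9 * c12_th u) u := by
  have h1 : HasDerivAt (fun x : ℝ => |x| ^ ((4 : ℝ) / 3)) ((4 : ℝ) / 3 * |u| ^ ((4 : ℝ) / 3 - 2) * u)
      u := hasDerivAt_abs_rpow u (by norm_num)
  have h2 : dnl 5 = fun x => (7 / 3 : ℝ) * |x| ^ ((4 : ℝ) / 3) := by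
    funext x
    unfold dnl
    rw [pw_pm5]; norm_num
  rw [h2]
  exact (h1.const_mul (7 / 3 : ℝ)).congr_deriv (by unfold c12_th; ring)

lemma c12_P4_five {y s : ℝ} (hy : |y| ≤ 1) (hs : 0 ≤ s) (hs1 : s ≤ 1) :
    1 / 12 * s ^ 3 ≤ (dnl 5 (y + s) + dnl 5 (y - s)) / 2 * s - (nl 5 (y + s) - nl 5 (y - s)) / 2 := by
  set Φ : ℝ → ℝ := fun t => (dnl 5 (y + t) + dnl 5 (y - t)) / 2 * t
    - (nl 5 (y + t) - nl 5 (y - t)) / 2 - 1 / 12 * t ^ 3 with hΦ
  have hd : ∀ t, HasDerivAt Φ ((28 / 9 * c12_th (y + t) - 28 / 9 * c12_th (y - t)) / 2 * t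
      - 1 / 4 * t ^ 2) t := by
    intro t
    have a1 : HasDerivAt (fun t => dnl 5 (y + t)) (28 / 9 * c12_th (y + t)) t :=
      (c12_hasDerivAt_dnl5 (y + t)).comp_const_add y t
    have a2 : HasDerivAt (fun t => dnl 5 (y - t)) (-(28 / 9 * c12_th (y - t))) t :=
      (c12_hasDerivAt_dnl5 (y - t)).comp_const_sub y t
    have b1 : HasDerivAt (fun t => nl 5 (y + t)) (dnl 5 (y + t)) t :=
      (hasDerivAt_nl (by norm_num) (by norm_num) (y + t)).comp_const_add y t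
    have b2 : HasDerivAt (fun t => nl 5 (y - t)) (-dnl 5 (y - t)) t :=
      (hasDerivAt_nl (by norm_num) (by norm_num) (y - t)).comp_const_sub y t
    have c1 : HasDerivAt Φ (((28 / 9 * c12_th (y + t) + -(28 / 9 * c12_th (y - t))) / 2 * t
        + (dnl 5 (y + t) + dnl 5 (y - t)) / 2 * 1) - (dnl 5 (y + t) - -dnl 5 (y - t)) / 2
        - 1 / 12 * (((3 : ℕ) : ℝ) * t ^ 2)) t :=
      ((((a1.add a2).div_const 2).mul (hasDerivAt_id t)).sub ((b1.sub b2).div_const 2)).sub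
        ((hasDerivAt_pow 3 t).const_mul (1 / 12 : ℝ))
    exact c1.congr_deriv (by push_cast; ring)
  have hmono : MonotoneOn Φ (Icc 0 1) := by
    apply monotoneOn_of_deriv_nonneg (convex_Icc 0 1)
    · exact fun t _ => (hd t).continuousAt.continuousWithinAt
    · exact fun t _ => (hd t).differentiableAt.differentiableWithinAt
    · intro t ht
      rw [interior_Icc] at ht
      rw [(hd t).deriv]
      have k1 : |y + t| ≤ 2 := (abs_add_le _ _).trans (by rw [abs_of_pos ht.1]; linarith [ht.2])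
      have k2 : |y - t| ≤ 2 := (abs_sub _ _).trans (by rw [abs_of_pos ht.1]; linarith [ht.2])
      have k3 := c12_th_diff (a := y - t) (b := y + t) (by linarith [ht.1]) k2 k1
      have k4 : (y + t - (y - t)) / 12 = t / 6 := by ring
      rw [k4] at k3
      have k5 := mul_le_mul_of_nonneg_right k3 ht.1.le
      nlinarith [sq_nonneg t]
  have h0 : Φ 0 = 0 := by simp [hΦ]
  have h1 := hmono (left_mem_Icc.2 zero_le_one) ⟨hs, hs1⟩ hs
  rw [h0] at h1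
  simp only [hΦ] at h1
  linarith

/-- P4 -/
lemma c12_P4 (hN : 3 ≤ N) (hN5 : N ≤ 5) : ∃ c : ℝ, 0 < c ∧ ∀ y s : ℝ, |y| ≤ 1 → |s| ≤ 1 →
    c * (y ^ 2 * s ^ 4) ≤
      (dnl N (y + s) + dnl N (y - s)) / 2 * s ^ 2 - (nl N (y + s) - nl N (y - s)) / 2 * s := by
  have hcases : N = 3 ∨ N = 4 ∨ N = 5 := by omega
  rcases hcases with rfl | rfl | rfl
  · refine ⟨20, by norm_num, fun y s hy hs => ?_⟩
    rw [c12_dnl3, c12_dnl3, c12_nl3, c12_nl3]
    have : (5 * (y + s) ^ 4 + 5 * (y - s) ^ 4) / 2 * s ^ 2 - ((y + s) ^ 5 - (y - s) ^ 5) / 2 * s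
        = 20 * (y ^ 2 * s ^ 4) + 4 * s ^ 6 := by ring
    rw [this]
    have : 0 ≤ s ^ 6 := by positivity
    linarith
  · refine ⟨2, by norm_num, fun y s hy hs => ?_⟩
    rw [c12_dnl4, c12_dnl4, c12_nl4, c12_nl4]
    have h1 : (3 * (y + s) ^ 2 + 3 * (y - s) ^ 2) / 2 * s ^ 2 - ((y + s) ^ 3 - (y - s) ^ 3) / 2 * s
        = 2 * s ^ 4 := by ring
    rw [h1]
    have h2 : y ^ 2 ≤ 1 := by rw [sq_le_one_iff_abs_le_one]; exact hy
    have h3 : 0 ≤ s ^ 4 := by positivity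
    nlinarith
  · refine ⟨1 / 12, by norm_num, fun y s hy hs => ?_⟩
    have h2 : y ^ 2 ≤ 1 := by rw [sq_le_one_iff_abs_le_one]; exact hy
    have h3 : 0 ≤ s ^ 4 := by positivity
    have h4 : 1 / 12 * (y ^ 2 * s ^ 4) ≤ 1 / 12 * s ^ 4 := by nlinarith
    refine h4.trans ?_
    rcases le_total 0 s with h0 | h0
    · have h5 := mul_le_mul_of_nonneg_right (c12_P4_five hy h0 (by rw [abs_of_nonneg h0] at hs; exact hs)) h0
      calc _ = 1 / 12 * s ^ 3 * s := by ring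
        _ ≤ _ := h5
        _ = _ := by ring
    · have h0' : 0 ≤ -s := by linarith
      have h5 := mul_le_mul_of_nonneg_right (c12_P4_five hy h0' (by rw [abs_of_nonpos h0] at hs; exact hs)) h0'
      rw [sub_neg_eq_add, ← sub_eq_add_neg] at h5
      calc _ = 1 / 12 * (-s) ^ 3 * -s := by ring
        _ ≤ _ := h5
        _ = _ := by ring

end Pool.Agent.helper13.BN
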