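import Pool.Agent.helper41.BN.Pw
import Pool.Agent.helper73.BN.Moments
import Pool.Agent.helper15.BN.Cross
import Pool.Agent.helper13.BN.Defs2
import Pool.Agent.helper17.BN.C12Pw

/-!
# BN-C3: averages over the sphere of the nonlinear terms
-/

set_option autoImplicit false
open MeasureTheory Filter Topology Set Metric
open scoped ContDiff

noncomputable section
namespace Pool.Agent.helper13.BN
variable {N : ℕ}

lemma c12_wt_cont (hN : 3 ≤ N) : Continuous (wt N) := by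
  unfold wt
  have h : (0 : ℝ) ≤ ((N : ℝ) - 3) / 2 := by
    have : (3 : ℝ) ≤ N := by exact_mod_cast hN
    linarith
  exact (Real.continuous_rpow_const h).comp (by fun_prop)

lemma c12_av_cont (hN : 3 ≤ N) {X : Type*} [TopologicalSpace X] {k : X → ℝ → ℝ}
    (hk : Continuous (Function.uncurry k)) : Continuous (fun τ => av N (k τ)) := by
  unfold av
  apply Continuous.div_const
  apply intervalIntegral.continuous_parametric_intervalIntegral_of_continuous'
  exact hk.mul ((c12_wt_cont hN).comp continuous_snd)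

lemma c12_nl_cont (hN : 3 ≤ N) (hN5 : N ≤ 5) : Continuous (nl N) :=
  continuous_iff_continuousAt.2 fun u => (hasDerivAt_nl hN hN5 u).continuousAt

lemma c12_NL_cont (hN : 3 ≤ N) (hN5 : N ≤ 5) : Continuous (NL N) :=
  continuous_iff_continuousAt.2 fun u => (hasDerivAt_NL hN hN5 u).continuousAt

lemma c12_P_cont (l : ℕ) : Continuous (Pz N l) := (Pz_contDiff N l).continuous

lemma c12_P_odd {l : ℕ} (hl : Odd l) (s : ℝ) : Pz N l (-s) = - Pz N l s := by
  rw [Pz_neg, hl.neg_one_pow]; ring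

/-- symmetrisation -/
lemma c12_symm (hN : 3 ≤ N) {l : ℕ} (hl : Odd l) {G : ℝ → ℝ} (hG : Continuous G) (v : ℝ) :
    av N (fun s => G (v * Pz N l s)) =
      av N (fun s => (G (v * Pz N l s) + G (-(v * Pz N l s))) / 2) := by
  have h1 : av N (fun s => G (-(v * Pz N l s))) = av N (fun s => G (v * Pz N l s)) := by
    rw [← av_neg hN (fun s => G (v * Pz N l s))]
    congr 1
    funext s
    rw [c12_P_odd hl]; ring_nf
  have hc : Continuous (fun s => G (v * Pz N l s)) := hG.comp (continuous_const.mul (c12_P_cont l))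
  have hc' : Continuous (fun s => G (-(v * Pz N l s))) :=
    hG.comp (continuous_const.mul (c12_P_cont l)).neg
  have h2 : (fun s => (G (v * Pz N l s) + G (-(v * Pz N l s))) / 2) =
      fun s => (1 / 2 : ℝ) * (G (v * Pz N l s) + G (-(v * Pz N l s))) := by
    funext s; ring
  rw [h2, av_mul_left hN, av_add hN hc.continuousOn hc'.continuousOn, h1]
  ring

/-! ### the six averages -/

def c12_m1 (N l : ℕ) (y v : ℝ) : ℝ := av N (fun s => nl N (y - v * Pz N l s) * y)
def c12_m2 (N l : ℕ) (y v : ℝ) : ℝ := av N (fun s => nl N (y - v * Pz N l s) * (v * Pz N l s))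
def c12_m11 (N l : ℕ) (y v : ℝ) : ℝ := av N (fun s => dnl N (y - v * Pz N l s) * y ^ 2)
def c12_m22 (N l : ℕ) (y v : ℝ) : ℝ :=
  av N (fun s => dnl N (y - v * Pz N l s) * (v * Pz N l s) ^ 2)
def c12_m12 (N l : ℕ) (y v : ℝ) : ℝ :=
  av N (fun s => dnl N (y - v * Pz N l s) * (y * (v * Pz N l s)))
def c12_mh (N l : ℕ) (y v : ℝ) : ℝ := av N (fun s => NL N (y - v * Pz N l s))

lemma c12_m1_cont (hN : 3 ≤ N) (hN5 : N ≤ 5) (l : ℕ) :
    Continuous (fun z : ℝ × ℝ => c12_m1 N l z.1 z.2) := by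
  have h1 := c12_nl_cont hN hN5
  have h2 := c12_P_cont (N := N) l
  exact c12_av_cont hN (k := fun (z : ℝ × ℝ) s => nl N (z.1 - z.2 * Pz N l s) * z.1)
    (by unfold Function.uncurry; fun_prop)

lemma c12_m2_cont (hN : 3 ≤ N) (hN5 : N ≤ 5) (l : ℕ) :
    Continuous (fun z : ℝ × ℝ => c12_m2 N l z.1 z.2) := by
  have h1 := c12_nl_cont hN hN5
  have h2 := c12_P_cont (N := N) l
  exact c12_av_cont hN (k := fun (z : ℝ × ℝ) s => nl N (z.1 - z.2 * Pz N l s) * (z.2 * Pz N l s))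
    (by unfold Function.uncurry; fun_prop)

lemma c12_m11_cont (hN : 3 ≤ N) (hN5 : N ≤ 5) (l : ℕ) :
    Continuous (fun z : ℝ × ℝ => c12_m11 N l z.1 z.2) := by
  have h1 := continuous_dnl hN hN5
  have h2 := c12_P_cont (N := N) l
  exact c12_av_cont hN (k := fun (z : ℝ × ℝ) s => dnl N (z.1 - z.2 * Pz N l s) * z.1 ^ 2)
    (by unfold Function.uncurry; fun_prop)

lemma c12_m22_cont (hN : 3 ≤ N) (hN5 : N ≤ 5) (l : ℕ) :
    Continuous (fun z : ℝ × ℝ => c12_m22 N l z.1 z.2) := by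
  have h1 := continuous_dnl hN hN5
  have h2 := c12_P_cont (N := N) l
  exact c12_av_cont hN
    (k := fun (z : ℝ × ℝ) s => dnl N (z.1 - z.2 * Pz N l s) * (z.2 * Pz N l s) ^ 2)
    (by unfold Function.uncurry; fun_prop)

lemma c12_m12_cont (hN : 3 ≤ N) (hN5 : N ≤ 5) (l : ℕ) :
    Continuous (fun z : ℝ × ℝ => c12_m12 N l z.1 z.2) := by
  have h1 := continuous_dnl hN hN5
  have h2 := c12_P_cont (N := N) l
  exact c12_av_cont hN
    (k := fun (z : ℝ × ℝ) s => dnl N (z.1 - z.2 * Pz N l s) * (z.1 * (z.2 * Pz N l s)))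
    (by unfold Function.uncurry; fun_prop)

lemma c12_mh_cont (hN : 3 ≤ N) (hN5 : N ≤ 5) (l : ℕ) :
    Continuous (fun z : ℝ × ℝ => c12_mh N l z.1 z.2) := by
  have h1 := c12_NL_cont hN hN5
  have h2 := c12_P_cont (N := N) l
  exact c12_av_cont hN (k := fun (z : ℝ × ℝ) s => NL N (z.1 - z.2 * Pz N l s))
    (by unfold Function.uncurry; fun_prop)

/-! ### identities -/

lemma c12_nl_mul_self (hN : 3 ≤ N) (w : ℝ) : nl N w * w = (pm N + 2) * NL N w := by
  unfold nl NL
  have hp := c12_pm_pos hN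
  have h1 : |w| ^ (pm N + 2) = |w| ^ pm N * |w| ^ 2 := by
    rw [Real.rpow_add_of_nonneg (abs_nonneg w) hp.le (by norm_num)]
    congr 1
    rw [show (2 : ℝ) = ((2 : ℕ) : ℝ) by norm_num, Real.rpow_natCast]
  rw [h1, sq_abs]
  field_simp

lemma c12_id1 (hN : 3 ≤ N) (hN5 : N ≤ 5) (l : ℕ) (y v : ℝ) :
    c12_m1 N l y v = (pm N + 2) * c12_mh N l y v + c12_m2 N l y v := by
  have h1 := c12_nl_cont hN hN5
  have h1' := c12_NL_cont hN hN5
  have h2 := c12_P_cont (N := N) l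
  unfold c12_m1 c12_mh c12_m2
  rw [← av_mul_left hN, ← av_add hN (by fun_prop) (by fun_prop)]
  congr 1
  funext s
  have := c12_nl_mul_self hN (y - v * Pz N l s)
  rw [← this]; ring

lemma c12_id2 (hN : 3 ≤ N) (hN5 : N ≤ 5) (l : ℕ) (y v : ℝ) :
    c12_m12 N l y v = (pm N + 1) * c12_m2 N l y v + c12_m22 N l y v := by
  have h1 := c12_nl_cont hN hN5
  have h1' := continuous_dnl hN hN5
  have h2 := c12_P_cont (N := N) l
  unfold c12_m12 c12_m2 c12_m22
  rw [← av_mul_left hN, ← av_add hN (by fun_prop) (by fun_prop)]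
  congr 1
  funext s
  have := dnl_mul_self hN (y - v * Pz N l s)
  linear_combination (v * Pz N l s) * this

lemma c12_id3 (hN : 3 ≤ N) (hN5 : N ≤ 5) (l : ℕ) (y v : ℝ) :
    c12_m11 N l y v = (pm N + 1) * c12_m1 N l y v + c12_m12 N l y v := by
  have h1 := c12_nl_cont hN hN5
  have h1' := continuous_dnl hN hN5
  have h2 := c12_P_cont (N := N) l
  unfold c12_m11 c12_m1 c12_m12
  rw [← av_mul_left hN, ← av_add hN (by fun_prop) (by fun_prop)]
  congr 1
  funext s
  have := dnl_mul_self hN (y - v * Pz N l s)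
  linear_combination y * this

/-! ### estimates -/

section est

variable {l : ℕ}

lemma c12_abs_vP (hN : 3 ≤ N) {v : ℝ} (hv : |v| ≤ 1) {s : ℝ} (hs : s ∈ Icc (-1 : ℝ) 1) :
    |v * Pz N l s| ≤ 1 := by
  rw [abs_mul]
  have := Pz_abs_le N l hN (abs_le.2 hs)
  calc |v| * |Pz N l s| ≤ 1 * 1 := mul_le_mul hv this (abs_nonneg _) zero_le_one
    _ = 1 := one_mul 1

lemma c12_m2_symm (hN : 3 ≤ N) (hN5 : N ≤ 5) (hl : Odd l) (y v : ℝ) :
    -c12_m2 N l y v = av N (fun s => (nl N (y + v * Pz N l s) - nl N (y - v * Pz N l s)) / 2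
      * (v * Pz N l s)) := by
  have h1 := c12_nl_cont hN hN5
  unfold c12_m2
  rw [c12_symm hN hl (G := fun w => nl N (y - w) * w) (by fun_prop) v, ← neg_one_mul,
    ← av_mul_left hN]
  congr 1
  funext s
  rw [sub_neg_eq_add]; ring

lemma c12_av_sq (hN : 3 ≤ N) (v : ℝ) :
    av N (fun s => (v * Pz N l s) ^ 2) = v ^ 2 * av N (fun s => Pz N l s ^ 2) := by
  rw [← av_mul_left hN]
  congr 1; funext s; ring

lemma c12_av_four (hN : 3 ≤ N) (v : ℝ) :
    av N (fun s => (v * Pz N l s) ^ 4) = v ^ 4 * av N (fun s => Pz N l s ^ 4) := by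
  rw [← av_mul_left hN]
  congr 1; funext s; ring

/-- lower bound for `-m2` -/
lemma c12_m2_lower (hN : 3 ≤ N) (hN5 : N ≤ 5) (hl : Odd l) (y v : ℝ) :
    dnl N y * v ^ 2 * av N (fun s => Pz N l s ^ 2) ≤ -c12_m2 N l y v := by
  have h1 := c12_nl_cont hN hN5
  have h2 := c12_P_cont (N := N) l
  rw [c12_m2_symm hN hN5 hl, mul_assoc, ← c12_av_sq hN, ← av_mul_left hN]
  exact av_mono hN (by fun_prop) (by fun_prop) (fun s _ => c12_P1 hN hN5 y (v * Pz N l s))

lemma c12_m2_upper (hN : 3 ≤ N) (hN5 : N ≤ 5) : ∃ C : ℝ, 0 < C ∧ ∀ l : ℕ, Odd l →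
    ∀ y v : ℝ, |y| ≤ 1 → |v| ≤ 1 → -c12_m2 N l y v ≤ C * av N (fun s => Pz N l s ^ 2) := by
  obtain ⟨C, hC, h⟩ := c12_P2 hN hN5
  refine ⟨C, hC, fun l hl y v hy hv => ?_⟩
  have h1 := c12_nl_cont hN hN5
  have h2 := c12_P_cont (N := N) l
  rw [c12_m2_symm hN hN5 hl]
  have h3 : av N (fun s => C * (v * Pz N l s) ^ 2) ≤ C * av N (fun s => Pz N l s ^ 2) := by
    rw [av_mul_left hN, c12_av_sq hN]
    have h4 := av_Pz_sq_pos hN l
    have h5 : v ^ 2 ≤ 1 := by rw [sq_le_one_iff_abs_le_one]; exact hv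
    have : v ^ 2 * av N (fun s => Pz N l s ^ 2) ≤ 1 * av N (fun s => Pz N l s ^ 2) :=
      mul_le_mul_of_nonneg_right h5 h4.le
    rw [one_mul] at this
    exact mul_le_mul_of_nonneg_left this hC.le
  refine le_trans ?_ h3
  exact av_mono hN (by fun_prop) (by fun_prop)
    (fun s hs => h y (v * Pz N l s) hy (c12_abs_vP hN hv hs))

lemma c12_m1_upper (hN : 3 ≤ N) (hN5 : N ≤ 5) : ∃ C : ℝ, 0 < C ∧ ∀ l : ℕ, Odd l →
    ∀ y v : ℝ, |y| ≤ 1 → |v| ≤ 1 →
      c12_m1 N l y v ≤ (pm N + 2) * NL N y + C * av N (fun s => Pz N l s ^ 2) := by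
  obtain ⟨C, hC, h⟩ := c12_P3 hN hN5
  refine ⟨C, hC, fun l hl y v hy hv => ?_⟩
  have h1 := c12_nl_cont hN hN5
  have h2 := c12_P_cont (N := N) l
  have h3 : c12_m1 N l y v ≤ av N (fun s => (pm N + 2) * NL N y + (-(dnl N y * y * v) * Pz N l s
      + C * Pz N l s ^ 2)) := by
    unfold c12_m1
    apply av_mono hN (by fun_prop) (by fun_prop)
    intro s hs
    have h4 := h y (v * Pz N l s) hy (c12_abs_vP hN hv hs)
    have h5 := c12_nl_mul_self hN y
    have h6 : (nl N (y - v * Pz N l s) - nl N y + dnl N y * (v * Pz N l s)) * y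
        ≤ C * Pz N l s ^ 2 := by
      calc _ ≤ |(nl N (y - v * Pz N l s) - nl N y + dnl N y * (v * Pz N l s)) * y| :=
            le_abs_self _
        _ = |nl N (y - v * Pz N l s) - nl N y + dnl N y * (v * Pz N l s)| * |y| := abs_mul _ _
        _ ≤ (C * (v * Pz N l s) ^ 2) * 1 := by
            apply mul_le_mul h4 hy (abs_nonneg _); positivity
        _ = C * (v ^ 2 * Pz N l s ^ 2) := by ring
        _ ≤ C * (1 * Pz N l s ^ 2) := by
            have h5 : v ^ 2 ≤ 1 := by rw [sq_le_one_iff_abs_le_one]; exact hv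
            gcongr
        _ = _ := by ring
    rw [← h5]
    linarith
  refine h3.trans (le_of_eq ?_)
  rw [av_add hN (by fun_prop) (by fun_prop), av_const hN, av_add hN (by fun_prop) (by fun_prop),
    av_mul_left hN, av_mul_left hN]
  have h7 : av N (fun s => Pz N l s) = 0 := by
    have := c12_symm hN hl (G := fun w => w) continuous_id 1
    simp only [one_mul] at this
    rw [this]
    have h8 : (fun s => (Pz N l s + -Pz N l s) / 2) = fun _ => (0 : ℝ) := by funext s; ring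
    rw [h8, av_const hN]
  rw [h7]; ring

lemma c12_gap_lower (hN : 3 ≤ N) (hN5 : N ≤ 5) : ∃ c : ℝ, 0 < c ∧ ∀ l : ℕ, Odd l →
    ∀ y v : ℝ, |y| ≤ 1 → |v| ≤ 1 →
      c * (y ^ 2 * v ^ 4) * av N (fun s => Pz N l s ^ 4) ≤ c12_m22 N l y v + c12_m2 N l y v := by
  obtain ⟨c, hc, h⟩ := c12_P4 hN hN5
  refine ⟨c, hc, fun l hl y v hy hv => ?_⟩
  have h1 := c12_nl_cont hN hN5
  have h1' := continuous_dnl hN hN5
  have h2 := c12_P_cont (N := N) l
  have h3 : c12_m22 N l y v = av N (fun s => (dnl N (y + v * Pz N l s) + dnl N (y - v * Pz N l s)) / 2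
      * (v * Pz N l s) ^ 2) := by
    unfold c12_m22
    rw [c12_symm hN hl (G := fun w => dnl N (y - w) * w ^ 2) (by fun_prop) v]
    congr 1
    funext s
    rw [sub_neg_eq_add]; ring
  have h4 : c12_m22 N l y v + c12_m2 N l y v = av N (fun s =>
      (dnl N (y + v * Pz N l s) + dnl N (y - v * Pz N l s)) / 2 * (v * Pz N l s) ^ 2
      + -((nl N (y + v * Pz N l s) - nl N (y - v * Pz N l s)) / 2 * (v * Pz N l s))) := by
    rw [av_add hN (by fun_prop) (by fun_prop), ← h3]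
    congr 1
    have := c12_m2_symm hN hN5 hl y v
    have h5 : av N (fun s => -((nl N (y + v * Pz N l s) - nl N (y - v * Pz N l s)) / 2
        * (v * Pz N l s))) = -av N (fun s => (nl N (y + v * Pz N l s) - nl N (y - v * Pz N l s)) / 2
        * (v * Pz N l s)) := by
      rw [← neg_one_mul, ← av_mul_left hN]
      congr 1; funext s; ring
    rw [h5, ← this]; ring
  rw [h4]
  have h6 : c * (y ^ 2 * v ^ 4) * av N (fun s => Pz N l s ^ 4) =
      av N (fun s => c * (y ^ 2 * (v * Pz N l s) ^ 4)) := by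
    rw [← av_mul_left hN]
    congr 1; funext s; ring
  rw [h6]
  apply av_mono hN (by fun_prop) (by fun_prop)
  intro s hs
  have := h y (v * Pz N l s) hy (c12_abs_vP hN hv hs)
  linarith

lemma c12_mh_lower (hN : 3 ≤ N) (hN5 : N ≤ 5) (hl : Odd l) (y v : ℝ) :
    NL N y ≤ c12_mh N l y v := by
  have h1 := c12_NL_cont hN hN5
  have h2 := c12_P_cont (N := N) l
  unfold c12_mh
  rw [c12_symm hN hl (G := fun w => NL N (y - w)) (by fun_prop) v]
  conv_lhs => rw [← av_const hN (NL N y)]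
  apply av_mono hN (by fun_prop) (by fun_prop)
  intro s _
  have := c12_NL_conv hN y (v * Pz N l s)
  rw [sub_neg_eq_add]
  linarith

end est

end Pool.Agent.helper13.BN
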